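import Pool.Agent.N782.GN.StmB

/-!
# Project GN (helper782), part KER (helper8): bilinear forms with a smooth kernel, reduction to
narrow sectors
-/

set_option autoImplicit false

namespace Pool.Agent.N8.GN.Ker

open Finset Pool.Agent.N782.GN MeasureTheory

/-! ### The sectors -/

lemma sc_cases (δ x : ℝ) (t : ZI) : sc δ x t = 0 ∨ sc δ x t = 1 := by
  unfold sc
  split_ifs
  · right; rfl
  · left; rfl

lemma sc_nonneg (δ x : ℝ) (t : ZI) : 0 ≤ sc δ x t := by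
  rcases sc_cases δ x t with h | h <;> rw [h]
  norm_num

lemma sc_le_one (δ x : ℝ) (t : ZI) : sc δ x t ≤ 1 := by
  rcases sc_cases δ x t with h | h <;> rw [h]
  norm_num

lemma sc_of {δ x : ℝ} {t : ZI} (h : ∃ j : ℤ,
    x ≤ Complex.arg (t : ℂ) + 2 * Real.pi * j ∧ Complex.arg (t : ℂ) + 2 * Real.pi * j < x + δ) :
    sc δ x t = 1 := by
  unfold sc
  rw [if_pos h]

lemma sc_of_not {δ x : ℝ} {t : ZI} (h : ¬ ∃ j : ℤ,
    x ≤ Complex.arg (t : ℂ) + 2 * Real.pi * j ∧ Complex.arg (t : ℂ) + 2 * Real.pi * j < x + δ) :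
    sc δ x t = 0 := by
  unfold sc
  rw [if_neg h]

lemma ii_of_bdd {f : ℝ → ℝ} (hf : Measurable f) (C : ℝ) (h : ∀ x, |f x| ≤ C) (a b : ℝ) :
    IntervalIntegrable f volume a b := by
  rw [intervalIntegrable_iff]
  refine Measure.integrableOn_of_bounded (M := C) ?_ hf.aestronglyMeasurable
    (Filter.Eventually.of_forall h)
  rw [Set.uIoc]
  simp

lemma sc_eq_one {δ x : ℝ} {t : ZI} (h : sc δ x t = 1) : ∃ j : ℤ,
    x ≤ Complex.arg (t : ℂ) + 2 * Real.pi * j ∧ Complex.arg (t : ℂ) + 2 * Real.pi * j < x + δ := by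
  unfold sc at h
  split_ifs at h with h1
  · exact h1
  · norm_num at h

lemma meas_sc (δ : ℝ) (t : ZI) : Measurable fun x => sc δ x t := by
  unfold sc
  refine Measurable.ite ?_ measurable_const measurable_const
  have : {x : ℝ | ∃ j : ℤ, x ≤ Complex.arg (t : ℂ) + 2 * Real.pi * j ∧
      Complex.arg (t : ℂ) + 2 * Real.pi * j < x + δ} =
      ⋃ j : ℤ, Set.Ioc (Complex.arg (t : ℂ) + 2 * Real.pi * j - δ)
        (Complex.arg (t : ℂ) + 2 * Real.pi * j) := by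
    ext x
    simp only [Set.mem_ofPred_eq, Set.mem_iUnion, Set.mem_Ioc]
    refine exists_congr fun j => ?_
    constructor
    · rintro ⟨h1, h2⟩; exact ⟨by linarith, h1⟩
    · rintro ⟨h1, h2⟩; exact ⟨h2, by linarith⟩
  rw [this]
  exact MeasurableSet.iUnion fun j => measurableSet_Ioc

lemma periodic_sc (δ : ℝ) (t : ZI) : Function.Periodic (fun x => sc δ x t) (2 * Real.pi) := by
  intro x
  have h : (∃ j : ℤ, x + 2 * Real.pi ≤ Complex.arg (t : ℂ) + 2 * Real.pi * j ∧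
      Complex.arg (t : ℂ) + 2 * Real.pi * j < x + 2 * Real.pi + δ) ↔
      ∃ j : ℤ, x ≤ Complex.arg (t : ℂ) + 2 * Real.pi * j ∧
      Complex.arg (t : ℂ) + 2 * Real.pi * j < x + δ := by
    constructor
    · rintro ⟨j, h1, h2⟩
      refine ⟨j - 1, ?_, ?_⟩ <;> push_cast <;> linarith
    · rintro ⟨j, h1, h2⟩
      refine ⟨j + 1, ?_, ?_⟩ <;> push_cast <;> linarith
  change sc δ (x + 2 * Real.pi) t = sc δ x t
  by_cases h2 : ∃ j : ℤ, x ≤ Complex.arg (t : ℂ) + 2 * Real.pi * j ∧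
      Complex.arg (t : ℂ) + 2 * Real.pi * j < x + δ
  · rw [sc_of h2, sc_of (h.2 h2)]
  · rw [sc_of_not h2, sc_of_not fun h3 => h2 (h.1 h3)]

/-- The sector function near the argument. -/
lemma sc_eq {δ : ℝ} (t : ZI) {x : ℝ}
    (hx1 : Complex.arg (t : ℂ) - δ < x) (hx2 : x ≤ Complex.arg (t : ℂ) - δ + 2 * Real.pi) :
    sc δ x t = if x ≤ Complex.arg (t : ℂ) then 1 else 0 := by
  set a := Complex.arg (t : ℂ)
  have hpi : 0 < 2 * Real.pi := by positivity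
  have h : (∃ j : ℤ, x ≤ a + 2 * Real.pi * j ∧ a + 2 * Real.pi * j < x + δ) ↔ x ≤ a := by
    constructor
    · rintro ⟨j, h1, h2⟩
      by_contra hlt
      push Not at hlt
      rcases lt_or_ge j 1 with hj | hj
      · have : (j : ℝ) ≤ 0 := by exact_mod_cast (by omega : j ≤ 0)
        nlinarith
      · have : (1 : ℝ) ≤ j := by exact_mod_cast hj
        nlinarith
    · intro h1
      exact ⟨0, by simpa using h1, by simp only [Int.cast_zero, mul_zero, add_zero]; linarith⟩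
  split_ifs with h3
  · exact sc_of (h.2 h3)
  · exact sc_of_not fun h4 => h3 (h.1 h4)

lemma int_sc {δ : ℝ} (hδ : 0 < δ) (hδ2 : δ ≤ 2 * Real.pi) (t : ZI) :
    ∫ x in (0 : ℝ)..(2 * Real.pi), sc δ x t = δ := by
  set a := Complex.arg (t : ℂ) with ha
  have h1 := (periodic_sc δ t).intervalIntegral_add_eq 0 (a - δ)
  rw [zero_add] at h1
  rw [h1]
  have hle : a - δ ≤ a - δ + 2 * Real.pi := by linarith [Real.pi_pos]
  have hint : ∀ u v : ℝ, IntervalIntegrable (fun x => sc δ x t) volume u v := by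
    refine ii_of_bdd (meas_sc δ t) 1 fun x => ?_
    rw [abs_of_nonneg (sc_nonneg _ _ _)]
    exact sc_le_one _ _ _
  rw [← intervalIntegral.integral_add_adjacent_intervals (hint (a - δ) a)
    (hint a (a - δ + 2 * Real.pi))]
  have e1 : ∫ x in (a - δ)..a, sc δ x t = ∫ x in (a - δ)..a, (1 : ℝ) := by
    refine intervalIntegral.integral_congr_ae (Filter.Eventually.of_forall fun x hx => ?_)
    rw [Set.uIoc_of_le (by linarith)] at hx
    rw [sc_eq t hx.1 (by linarith [hx.2]), if_pos hx.2]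
  have e2 : ∫ x in a..(a - δ + 2 * Real.pi), sc δ x t =
      ∫ x in a..(a - δ + 2 * Real.pi), (0 : ℝ) := by
    refine intervalIntegral.integral_congr_ae (Filter.Eventually.of_forall fun x hx => ?_)
    rw [Set.uIoc_of_le (by linarith)] at hx
    rw [sc_eq t (by linarith [hx.1]) hx.2, if_neg (not_le.2 hx.1)]
  rw [e1, e2, intervalIntegral.integral_const, intervalIntegral.integral_zero]
  simp

/-! ### The measure of the set where the sine is small -/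

/-- the indicator of `|sin u| ≤ s` -/
noncomputable def chi0 (s u : ℝ) : ℝ := if |Real.sin u| ≤ s then 1 else 0

lemma chi0_nonneg (s u : ℝ) : 0 ≤ chi0 s u := by
  unfold chi0; split_ifs <;> norm_num

lemma chi0_le_one (s u : ℝ) : chi0 s u ≤ 1 := by
  unfold chi0; split_ifs <;> norm_num

lemma meas_chi0 (s : ℝ) : Measurable (chi0 s) :=
  Measurable.ite (measurableSet_le (Real.measurable_sin.abs) measurable_const)
    measurable_const measurable_const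

lemma periodic_chi0 (s : ℝ) : Function.Periodic (chi0 s) (2 * Real.pi) := by
  intro u
  unfold chi0
  rw [Real.sin_add_two_pi]

lemma chi0_neg (s u : ℝ) : chi0 s (-u) = chi0 s u := by
  unfold chi0
  rw [Real.sin_neg, abs_neg]

lemma near_of_sin {s u : ℝ} (h : |Real.sin u| ≤ s) (hu : |u| ≤ Real.pi / 2) :
    |u| ≤ Real.pi / 2 * s := by
  have h1 := Real.mul_abs_le_abs_sin hu
  have h2 : 2 / Real.pi * |u| ≤ s := h1.trans h
  have hpi := Real.pi_pos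
  rw [div_mul_eq_mul_div, div_le_iff₀ hpi] at h2
  linarith

lemma int_indicator_Icc (a b : ℝ) (hab : a ≤ b) (u v : ℝ) (huv : u ≤ v) :
    ∫ x in u..v, (Set.Icc a b).indicator (fun _ => (1 : ℝ)) x ≤ b - a := by
  rw [intervalIntegral.integral_of_le huv, integral_indicator measurableSet_Icc,
    Measure.restrict_restrict measurableSet_Icc, integral_const, smul_eq_mul, mul_one,
    measureReal_restrict_apply_univ]
  have h1 : volume.real (Set.Icc a b ∩ Set.Ioc u v) ≤ volume.real (Set.Icc a b) :=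
    measureReal_mono Set.inter_subset_left (by simp)
  refine h1.trans ?_
  rw [Real.volume_real_Icc_of_le hab]

lemma int_chi0 {s : ℝ} (hs : 0 < s) (c : ℝ) :
    ∫ u in c..(c + 2 * Real.pi), chi0 s u ≤ 2 * Real.pi * s := by
  have hpi := Real.pi_pos
  rw [(periodic_chi0 s).intervalIntegral_add_eq c (-(Real.pi / 2))]
  have hle : -(Real.pi / 2) ≤ -(Real.pi / 2) + 2 * Real.pi := by linarith
  have i0 : ∀ a b : ℝ, IntervalIntegrable (fun x => (Set.Icc a b).indicator (fun _ => (1 : ℝ)) x)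
      volume (-(Real.pi / 2)) (-(Real.pi / 2) + 2 * Real.pi) := by
    intro a b
    refine ii_of_bdd (measurable_const.indicator measurableSet_Icc) 1 (fun x => ?_) _ _
    rw [Set.indicator_apply]
    split_ifs <;> simp
  have i1 : IntervalIntegrable (chi0 s) volume (-(Real.pi / 2)) (-(Real.pi / 2) + 2 * Real.pi) := by
    refine ii_of_bdd (meas_chi0 s) 1 (fun x => ?_) _ _
    rw [abs_of_nonneg (chi0_nonneg _ _)]
    exact chi0_le_one _ _
  have key : ∀ u ∈ Set.Icc (-(Real.pi / 2)) (-(Real.pi / 2) + 2 * Real.pi), chi0 s u ≤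
      (Set.Icc (-(Real.pi / 2 * s)) (Real.pi / 2 * s)).indicator (fun _ => (1 : ℝ)) u +
      (Set.Icc (Real.pi - Real.pi / 2 * s) (Real.pi + Real.pi / 2 * s)).indicator
        (fun _ => (1 : ℝ)) u := by
    intro u hu
    have n1 : ∀ a b : ℝ, 0 ≤ (Set.Icc a b).indicator (fun _ => (1 : ℝ)) u := fun a b =>
      Set.indicator_nonneg (fun _ _ => zero_le_one) _
    by_cases h : |Real.sin u| ≤ s
    · have hc : chi0 s u = 1 := by unfold chi0; rw [if_pos h]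
      rw [hc]
      rcases le_or_gt u (Real.pi / 2) with h2 | h2
      · have h3 : |u| ≤ Real.pi / 2 := abs_le.2 ⟨hu.1, h2⟩
        have h4 := near_of_sin h h3
        rw [abs_le] at h4
        rw [Set.indicator_of_mem (show u ∈ Set.Icc (-(Real.pi / 2 * s)) (Real.pi / 2 * s) from h4)]
        linarith [n1 (Real.pi - Real.pi / 2 * s) (Real.pi + Real.pi / 2 * s)]
      · have h3 : |u - Real.pi| ≤ Real.pi / 2 := abs_le.2 ⟨by linarith, by linarith [hu.2]⟩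
        have h5 : |Real.sin (u - Real.pi)| ≤ s := by rwa [Real.sin_sub_pi, abs_neg]
        have h4 := near_of_sin h5 h3
        rw [abs_le] at h4
        rw [Set.indicator_of_mem (show u ∈ Set.Icc (Real.pi - Real.pi / 2 * s)
          (Real.pi + Real.pi / 2 * s) from ⟨by linarith, by linarith⟩)]
        linarith [n1 (-(Real.pi / 2 * s)) (Real.pi / 2 * s)]
    · have hc : chi0 s u = 0 := by unfold chi0; rw [if_neg h]
      rw [hc]
      exact add_nonneg (n1 _ _) (n1 _ _)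
  have h1 := intervalIntegral.integral_mono_on hle i1 ((i0 _ _).add (i0 _ _)) key
  refine h1.trans ?_
  rw [intervalIntegral.integral_add (i0 _ _) (i0 _ _)]
  have hps : 0 < Real.pi / 2 * s := by positivity
  have a1 := int_indicator_Icc (-(Real.pi / 2 * s)) (Real.pi / 2 * s) (by linarith) _ _ hle
  have a2 := int_indicator_Icc (Real.pi - Real.pi / 2 * s) (Real.pi + Real.pi / 2 * s)
    (by linarith) _ _ hle
  linarith

/-! ### Geometry -/

lemma nz_norm (w : ZI) : ‖(w : ℂ)‖ ^ 2 = nz w := by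
  rw [← Complex.normSq_eq_norm_sq, nz_eq, Complex.normSq_apply, GaussianInt.intCast_re,
    GaussianInt.intCast_im]
  ring

lemma dlc_cast (w1 w2 : ZI) : dlc (w1 : ℂ) (w2 : ℂ) = (dl w1 w2 : ℝ) := by
  unfold dlc dl
  rw [Complex.mul_im, Complex.conj_re, Complex.conj_im]
  push_cast
  rw [GaussianInt.intCast_re, GaussianInt.intCast_im, GaussianInt.intCast_re,
    GaussianInt.intCast_im]
  ring

lemma dlc_polar (r1 r2 a1 a2 : ℝ) : dlc (r1 * Complex.exp (a1 * Complex.I))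
    (r2 * Complex.exp (a2 * Complex.I)) = r1 * r2 * Real.sin (a2 - a1) := by
  unfold dlc
  rw [Real.sin_sub, Complex.mul_im, Complex.conj_re, Complex.conj_im, Complex.re_ofReal_mul,
    Complex.im_ofReal_mul, Complex.re_ofReal_mul, Complex.im_ofReal_mul,
    Complex.exp_ofReal_mul_I_re, Complex.exp_ofReal_mul_I_im, Complex.exp_ofReal_mul_I_re,
    Complex.exp_ofReal_mul_I_im]
  ring

lemma dl_polar (w1 w2 : ZI) : (dl w1 w2 : ℝ) = ‖(w1 : ℂ)‖ * ‖(w2 : ℂ)‖ *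
    Real.sin (Complex.arg (w2 : ℂ) - Complex.arg (w1 : ℂ)) := by
  rw [← dlc_cast, ← dlc_polar, Complex.norm_mul_exp_arg_mul_I, Complex.norm_mul_exp_arg_mul_I]

lemma mem_cw {R : ℝ} (hR : 1 ≤ R) {w : ZI} (hw : w ∈ cw R) :
    R < ‖(w : ℂ)‖ ∧ ‖(w : ℂ)‖ ≤ 2 * R ∧ R ^ 2 < nz w ∧ nz w ≤ 4 * R ^ 2 := by
  unfold cw at hw
  rw [mem_filter, mem_bl] at hw
  obtain ⟨⟨_, h1⟩, h2, _⟩ := hw
  have h3 := nz_norm w
  refine ⟨?_, ?_, h2, h1⟩
  · refine lt_of_pow_lt_pow_left₀ 2 (norm_nonneg _) ?_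
    rw [h3]; exact h2
  · refine (pow_le_pow_iff_left₀ (norm_nonneg _) (by linarith) (by norm_num : (2 : ℕ) ≠ 0)).1 ?_
    rw [h3]
    calc nz w ≤ 4 * R ^ 2 := h1
      _ = (2 * R) ^ 2 := by ring

/-- The rotation: `w` moved to the absolute value `r` and the argument `x`. -/
lemma move {w : ZI} (hw : (w : ℂ) ≠ 0) (r x : ℝ) (j : ℤ) :
    (w : ℂ) * ((r / ‖(w : ℂ)‖ : ℝ) : ℂ) *
      Complex.exp (((x - (Complex.arg (w : ℂ) + 2 * Real.pi * j) : ℝ) : ℂ) * Complex.I) =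
    r * Complex.exp (x * Complex.I) := by
  have hn : (‖(w : ℂ)‖ : ℂ) ≠ 0 := by exact_mod_cast (norm_ne_zero_iff.2 hw)
  have h1 : (w : ℂ) = ‖(w : ℂ)‖ * Complex.exp (Complex.arg (w : ℂ) * Complex.I) :=
    (Complex.norm_mul_exp_arg_mul_I _).symm
  have h2 : Complex.exp (Complex.arg (w : ℂ) * Complex.I) *
      Complex.exp (((x - (Complex.arg (w : ℂ) + 2 * Real.pi * j) : ℝ) : ℂ) * Complex.I) =
      Complex.exp (x * Complex.I) := by
    rw [← Complex.exp_add]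
    have h3 : (Complex.arg (w : ℂ) : ℂ) * Complex.I +
        ((x - (Complex.arg (w : ℂ) + 2 * Real.pi * j) : ℝ) : ℂ) * Complex.I =
        x * Complex.I + ((-j : ℤ) : ℂ) * (2 * Real.pi * Complex.I) := by
      push_cast
      ring
    rw [h3, Complex.exp_add, Complex.exp_int_mul_two_pi_mul_I, mul_one]
  calc (w : ℂ) * ((r / ‖(w : ℂ)‖ : ℝ) : ℂ) *
      Complex.exp (((x - (Complex.arg (w : ℂ) + 2 * Real.pi * j) : ℝ) : ℂ) * Complex.I)
      = (‖(w : ℂ)‖ * Complex.exp (Complex.arg (w : ℂ) * Complex.I)) *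
        ((r / ‖(w : ℂ)‖ : ℝ) : ℂ) *
      Complex.exp (((x - (Complex.arg (w : ℂ) + 2 * Real.pi * j) : ℝ) : ℂ) * Complex.I) := by
        rw [← h1]
    _ = r * (Complex.exp (Complex.arg (w : ℂ) * Complex.I) *
      Complex.exp (((x - (Complex.arg (w : ℂ) + 2 * Real.pi * j) : ℝ) : ℂ) * Complex.I)) := by
        push_cast
        field_simp
    _ = r * Complex.exp (x * Complex.I) := by rw [h2]

/-- The kernel at the standard points is close to the kernel at `w₁`, `w₂`. -/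
lemma close {R κ₀ κ₁ s δ η : ℝ} {K : ℂ → ℂ → ℝ} (hR : 1 ≤ R) (hs : 0 < s) (hδ : 0 < δ)
    (hK : Ker R κ₀ κ₁ s δ η K) {w1 w2 : ZI} (hw1 : w1 ∈ cw R) (hw2 : w2 ∈ cw R)
    {x y r1 r2 : ℝ} (hx : sc δ x w1 = 1) (hy : sc δ y w2 = 1) (h1 : R ≤ r1) (h1' : r1 ≤ 2 * R)
    (h2 : R ≤ r2) (h2' : r2 ≤ 2 * R) (h3 : |r1 / ‖(w1 : ℂ)‖ - 1| ≤ η)
    (h4 : |r2 / ‖(w2 : ℂ)‖ - 1| ≤ η) :
    |K w1 w2 - K (r1 * Complex.exp (x * Complex.I)) (r2 * Complex.exp (y * Complex.I))| ≤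
      if |(dl w1 w2 : ℝ)| ≤ 4 * (s + δ) * R ^ 2 then κ₁ else 0 := by
  obtain ⟨a1, a2, _, _⟩ := mem_cw hR hw1
  obtain ⟨b1, b2, _, _⟩ := mem_cw hR hw2
  have hn1 : 0 < ‖(w1 : ℂ)‖ := by linarith
  have hn2 : 0 < ‖(w2 : ℂ)‖ := by linarith
  obtain ⟨j1, c1, c2⟩ := sc_eq_one hx
  obtain ⟨j2, d1, d2⟩ := sc_eq_one hy
  split_ifs with hd
  · have e1 := hK.var w1 w2 (r1 / ‖(w1 : ℂ)‖) (r2 / ‖(w2 : ℂ)‖)
      (x - (Complex.arg (w1 : ℂ) + 2 * Real.pi * j1))
      (y - (Complex.arg (w2 : ℂ) + 2 * Real.pi * j2)) a1.le a2 b1.le b2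
      (by rw [div_mul_cancel₀ _ hn1.ne']; exact h1) (by rw [div_mul_cancel₀ _ hn1.ne']; exact h1')
      (by rw [div_mul_cancel₀ _ hn2.ne']; exact h2) (by rw [div_mul_cancel₀ _ hn2.ne']; exact h2')
      h3 h4 (abs_le.2 ⟨by linarith, by linarith⟩) (abs_le.2 ⟨by linarith, by linarith⟩)
    rw [move (norm_pos_iff.1 hn1), move (norm_pos_iff.1 hn2)] at e1
    rw [abs_sub_comm]
    exact e1
  · push Not at hd
    have hR2 : 0 < R ^ 2 := by positivity
    have hK1 : K w1 w2 = 0 := by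
      refine hK.supp _ _ a1.le a2 b1.le b2 ?_
      rw [dlc_cast]
      refine lt_of_le_of_lt ?_ hd
      nlinarith
    have hsin : s < |Real.sin (y - x)| := by
      have e1 : |(dl w1 w2 : ℝ)| ≤ 4 * R ^ 2 *
          |Real.sin (Complex.arg (w2 : ℂ) - Complex.arg (w1 : ℂ))| := by
        rw [dl_polar, abs_mul, abs_mul, abs_of_pos hn1, abs_of_pos hn2]
        refine mul_le_mul_of_nonneg_right ?_ (abs_nonneg _)
        calc ‖(w1 : ℂ)‖ * ‖(w2 : ℂ)‖ ≤ (2 * R) * (2 * R) :=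
              mul_le_mul a2 b2 hn2.le (by linarith)
          _ = 4 * R ^ 2 := by ring
      have e2 : s + δ < |Real.sin (Complex.arg (w2 : ℂ) - Complex.arg (w1 : ℂ))| := by
        have e3 : 4 * R ^ 2 * (s + δ) <
            4 * R ^ 2 * |Real.sin (Complex.arg (w2 : ℂ) - Complex.arg (w1 : ℂ))| := by
          have : 4 * R ^ 2 * (s + δ) = 4 * (s + δ) * R ^ 2 := by ring
          rw [this]
          exact hd.trans_le e1
        exact lt_of_mul_lt_mul_left e3 (by positivity)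
      have e4 : Real.sin (y - x) = Real.sin (y - x - ((j2 - j1 : ℤ) : ℝ) * (2 * Real.pi)) :=
        (Real.sin_sub_int_mul_two_pi _ _).symm
      have e5 := Real.abs_sin_sub_sin_le (y - x - ((j2 - j1 : ℤ) : ℝ) * (2 * Real.pi))
        (Complex.arg (w2 : ℂ) - Complex.arg (w1 : ℂ))
      rw [← e4] at e5
      have e6 : |y - x - ((j2 - j1 : ℤ) : ℝ) * (2 * Real.pi) -
          (Complex.arg (w2 : ℂ) - Complex.arg (w1 : ℂ))| ≤ δ := by
        push_cast
        rw [abs_le]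
        constructor <;> linarith
      have e7 := abs_sub_abs_le_abs_sub (Real.sin (Complex.arg (w2 : ℂ) - Complex.arg (w1 : ℂ)))
        (Real.sin (y - x))
      rw [abs_sub_comm] at e7
      linarith
    have hK2 : K (r1 * Complex.exp (x * Complex.I)) (r2 * Complex.exp (y * Complex.I)) = 0 := by
      have n1 : ‖(r1 : ℂ) * Complex.exp (x * Complex.I)‖ = r1 := by
        rw [norm_mul, Complex.norm_exp_ofReal_mul_I, mul_one, Complex.norm_real,
          Real.norm_of_nonneg (by linarith)]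
      have n2 : ‖(r2 : ℂ) * Complex.exp (y * Complex.I)‖ = r2 := by
        rw [norm_mul, Complex.norm_exp_ofReal_mul_I, mul_one, Complex.norm_real,
          Real.norm_of_nonneg (by linarith)]
      refine hK.supp _ _ (by rw [n1]; exact h1) (by rw [n1]; exact h1') (by rw [n2]; exact h2)
        (by rw [n2]; exact h2') ?_
      rw [dlc_polar, abs_mul, abs_of_pos (by nlinarith : (0 : ℝ) < r1 * r2)]
      have hrr : R ^ 2 ≤ r1 * r2 := by
        rw [sq]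
        exact mul_le_mul h1 h2 (by linarith) (by linarith)
      calc s * R ^ 2 < |Real.sin (y - x)| * R ^ 2 := mul_lt_mul_of_pos_right hsin hR2
        _ ≤ |Real.sin (y - x)| * (r1 * r2) := mul_le_mul_of_nonneg_left hrr (abs_nonneg _)
        _ = r1 * r2 * |Real.sin (y - x)| := mul_comm _ _
    rw [hK1, hK2, sub_zero, abs_zero]

/-- The kernel at the standard points. -/
lemma std_le {R κ₀ κ₁ s δ η : ℝ} {K : ℂ → ℂ → ℝ} (hR : 1 ≤ R)
    (hK : Ker R κ₀ κ₁ s δ η K) {x y r1 r2 : ℝ} (h1 : R ≤ r1) (h1' : r1 ≤ 2 * R)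
    (h2 : R ≤ r2) (h2' : r2 ≤ 2 * R) :
    |K (r1 * Complex.exp (x * Complex.I)) (r2 * Complex.exp (y * Complex.I))| ≤
      κ₀ * chi0 s (y - x) := by
  have n1 : ‖(r1 : ℂ) * Complex.exp (x * Complex.I)‖ = r1 := by
    rw [norm_mul, Complex.norm_exp_ofReal_mul_I, mul_one, Complex.norm_real,
      Real.norm_of_nonneg (by linarith)]
  have n2 : ‖(r2 : ℂ) * Complex.exp (y * Complex.I)‖ = r2 := by
    rw [norm_mul, Complex.norm_exp_ofReal_mul_I, mul_one, Complex.norm_real,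
      Real.norm_of_nonneg (by linarith)]
  by_cases h : |Real.sin (y - x)| ≤ s
  · have hc : chi0 s (y - x) = 1 := by unfold chi0; rw [if_pos h]
    rw [hc, mul_one]
    exact hK.bd _ _ (by rw [n1]; exact h1) (by rw [n1]; exact h1') (by rw [n2]; exact h2)
      (by rw [n2]; exact h2')
  · have hc : chi0 s (y - x) = 0 := by unfold chi0; rw [if_neg h]
    push Not at h
    have hR2 : 0 < R ^ 2 := by positivity
    have hK2 : K (r1 * Complex.exp (x * Complex.I)) (r2 * Complex.exp (y * Complex.I)) = 0 := by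
      refine hK.supp _ _ (by rw [n1]; exact h1) (by rw [n1]; exact h1') (by rw [n2]; exact h2)
        (by rw [n2]; exact h2') ?_
      rw [dlc_polar, abs_mul, abs_of_pos (by nlinarith : (0 : ℝ) < r1 * r2)]
      have hrr : R ^ 2 ≤ r1 * r2 := by
        rw [sq]
        exact mul_le_mul h1 h2 (by linarith) (by linarith)
      calc s * R ^ 2 < |Real.sin (y - x)| * R ^ 2 := mul_lt_mul_of_pos_right h hR2
        _ ≤ |Real.sin (y - x)| * (r1 * r2) := mul_le_mul_of_nonneg_left hrr (abs_nonneg _)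
        _ = r1 * r2 * |Real.sin (y - x)| := mul_comm _ _
    rw [hK2, hc, abs_zero, mul_zero]

/-! ### The radial partition -/

/-- the partition points -/
noncomputable def Yi (R : ℝ) (J i : ℕ) : ℝ := R ^ 2 * (1 + 3 * i / J)

/-- the index of `w` -/
noncomputable def idx (R : ℝ) (J : ℕ) (w : ZI) : ℕ := ⌈(nz w / R ^ 2 - 1) * J / 3⌉₊ - 1

lemma Yi_lt_iff {R : ℝ} (hR : 1 ≤ R) {J : ℕ} (hJ : 0 < J) (i : ℕ) (w : ZI) :
    Yi R J i < nz w ↔ (i : ℝ) < (nz w / R ^ 2 - 1) * J / 3 := by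
  have hJ' : (0 : ℝ) < J := by exact_mod_cast hJ
  have hR2 : 0 < R ^ 2 := by positivity
  unfold Yi
  rw [mul_comm, ← lt_div_iff₀ hR2, lt_div_iff₀ (by norm_num : (0 : ℝ) < 3)]
  constructor
  · intro h
    have h1 : 3 * (i : ℝ) / J < nz w / R ^ 2 - 1 := by linarith
    rw [div_lt_iff₀ hJ'] at h1
    linarith
  · intro h
    have h1 : 3 * (i : ℝ) / J < nz w / R ^ 2 - 1 := by
      rw [div_lt_iff₀ hJ']
      linarith
    linarith

lemma idx_spec {R : ℝ} (hR : 1 ≤ R) {J : ℕ} (hJ : 0 < J) {w : ZI} (hw : w ∈ cw R) :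
    idx R J w < J ∧ ∀ i, idx R J w = i ↔ (Yi R J i < nz w ∧ nz w ≤ Yi R J (i + 1)) := by
  have hJ' : (0 : ℝ) < J := by exact_mod_cast hJ
  have hR2 : 0 < R ^ 2 := by positivity
  obtain ⟨_, _, h1, h2⟩ := mem_cw hR hw
  obtain ⟨u, hu⟩ : ∃ u : ℝ, u = (nz w / R ^ 2 - 1) * J / 3 := ⟨_, rfl⟩
  have hu0 : 0 < u := by
    have : 1 < nz w / R ^ 2 := by rw [lt_div_iff₀ hR2]; linarith
    rw [hu]
    have h3 : 0 < nz w / R ^ 2 - 1 := by linarith
    positivity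
  have huJ : u ≤ J := by
    have : nz w / R ^ 2 ≤ 4 := by rw [div_le_iff₀ hR2]; exact h2
    rw [hu, div_le_iff₀ (by norm_num)]
    nlinarith
  have hc1 : 0 < ⌈u⌉₊ := Nat.ceil_pos.2 hu0
  have hc2 : ⌈u⌉₊ ≤ J := Nat.ceil_le.2 huJ
  unfold idx
  rw [← hu]
  refine ⟨by omega, fun i => ?_⟩
  rw [Yi_lt_iff hR hJ, ← not_lt, Yi_lt_iff hR hJ, ← hu, not_lt]
  constructor
  · intro h
    have h3 : ⌈u⌉₊ = i + 1 := by omega
    constructor
    · have := Nat.ceil_lt_add_one hu0.le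
      rw [h3] at this
      push_cast at this
      linarith
    · have := Nat.le_ceil u
      rwa [h3] at this
  · rintro ⟨h3, h4⟩
    have h5 : ⌈u⌉₊ ≤ i + 1 := Nat.ceil_le.2 h4
    have h6 : i < ⌈u⌉₊ := Nat.lt_ceil.2 h3
    omega

lemma Yi_bounds {R : ℝ} (hR : 1 ≤ R) {J i : ℕ} (hi : i ≤ J) :
    R ^ 2 ≤ Yi R J i ∧ Yi R J i ≤ 4 * R ^ 2 := by
  have hR2 : 0 < R ^ 2 := by positivity
  unfold Yi
  have h0 : (0 : ℝ) ≤ 3 * i / J := by positivity
  have h1 : (3 : ℝ) * i / J ≤ 3 := by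
    rcases Nat.eq_zero_or_pos J with h | h
    · rw [h]; simp
    · rw [div_le_iff₀ (by exact_mod_cast h)]
      have : (i : ℝ) ≤ J := by exact_mod_cast hi
      linarith
  constructor <;> nlinarith

lemma Yi_mono {R : ℝ} {J i : ℕ} : Yi R J i ≤ Yi R J (i + 1) := by
  unfold Yi
  refine mul_le_mul_of_nonneg_left ?_ (sq_nonneg _)
  push_cast
  gcongr
  linarith

lemma r_bounds {R : ℝ} (hR : 1 ≤ R) {J i : ℕ} (hi : i ≤ J) :
    R ≤ Real.sqrt (Yi R J i) ∧ Real.sqrt (Yi R J i) ≤ 2 * R := by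
  obtain ⟨h1, h2⟩ := Yi_bounds hR hi
  constructor
  · exact Real.le_sqrt_of_sq_le h1
  · rw [show (2 : ℝ) * R = Real.sqrt ((2 * R) ^ 2) from (Real.sqrt_sq (by linarith)).symm]
    refine Real.sqrt_le_sqrt ?_
    nlinarith

lemma ratio {R η : ℝ} (hR : 1 ≤ R) (hη : 0 < η) (hη1 : η ≤ 1) {J : ℕ} (hJ : 0 < J)
    (hJη : 3 / (J : ℝ) ≤ η) {w : ZI} (hw : w ∈ cw R) :
    |Real.sqrt (Yi R J (idx R J w)) / ‖(w : ℂ)‖ - 1| ≤ η := by
  have hJ' : (0 : ℝ) < J := by exact_mod_cast hJ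
  have hR2 : 0 < R ^ 2 := by positivity
  obtain ⟨h0, hi⟩ := idx_spec hR hJ hw
  obtain ⟨h1, h2⟩ := (hi _).1 rfl
  obtain ⟨a1, a2, _, _⟩ := mem_cw hR hw
  set i := idx R J w
  have hn : 0 < ‖(w : ℂ)‖ := by linarith
  obtain ⟨y1, y2⟩ := Yi_bounds (J := J) hR h0.le
  have hY0 : 0 < Yi R J i := by linarith
  have h3 : nz w ≤ Yi R J i * (1 + η) := by
    have e : Yi R J (i + 1) = Yi R J i + R ^ 2 * (3 / J) := by
      unfold Yi; push_cast; field_simp; ring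
    rw [e] at h2
    have : R ^ 2 * (3 / J) ≤ Yi R J i * η := mul_le_mul y1 hJη (by positivity) hY0.le
    linarith
  set ρ := Real.sqrt (Yi R J i) / ‖(w : ℂ)‖ with hρ
  have hρ0 : 0 ≤ ρ := by positivity
  have hρ2 : ρ ^ 2 = Yi R J i / nz w := by
    rw [hρ, div_pow, Real.sq_sqrt hY0.le, nz_norm]
  have hnz : 0 < nz w := by linarith
  have hρ1 : ρ ≤ 1 := by
    refine (sq_le_one_iff₀ hρ0).1 ?_
    rw [hρ2, div_le_one hnz]
    exact h1.le
  have hρ3 : (1 - η) ^ 2 ≤ ρ ^ 2 := by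
    rw [hρ2, le_div_iff₀ hnz]
    have e1 : (1 - η) ^ 2 * nz w ≤ (1 - η) ^ 2 * (Yi R J i * (1 + η)) :=
      mul_le_mul_of_nonneg_left h3 (sq_nonneg _)
    have e2 : (1 - η) ^ 2 * (1 + η) ≤ 1 := by nlinarith [mul_nonneg hη.le hη.le]
    have e3 : (1 - η) ^ 2 * (Yi R J i * (1 + η)) = Yi R J i * ((1 - η) ^ 2 * (1 + η)) := by ring
    rw [e3] at e1
    have e4 : Yi R J i * ((1 - η) ^ 2 * (1 + η)) ≤ Yi R J i * 1 :=
      mul_le_mul_of_nonneg_left e2 hY0.le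
    linarith
  have hρ4 : 1 - η ≤ ρ :=
    (pow_le_pow_iff_left₀ (by linarith) hρ0 (by norm_num : (2 : ℕ) ≠ 0)).1 hρ3
  rw [abs_le]
  constructor <;> linarith

/-! ### The integrals -/

/-- the measure on `(0, 2π]` -/
noncomputable def mu0 : Measure ℝ := volume.restrict (Set.Ioc 0 (2 * Real.pi))

instance : IsFiniteMeasure mu0 := by
  unfold mu0
  infer_instance

lemma iv_eq (f : ℝ → ℝ) : ∫ x in (0 : ℝ)..(2 * Real.pi), f x = ∫ x, f x ∂mu0 := by
  rw [intervalIntegral.integral_of_le (by positivity)]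
  rfl

lemma int_bdd {f : ℝ × ℝ → ℝ} (hf : Measurable f) (C : ℝ) (h : ∀ z, |f z| ≤ C) :
    Integrable f (mu0.prod mu0) :=
  Integrable.of_bound hf.aestronglyMeasurable C (Filter.Eventually.of_forall h)

lemma int_bdd1 {f : ℝ → ℝ} (hf : Measurable f) (C : ℝ) (h : ∀ z, |f z| ≤ C) :
    Integrable f mu0 :=
  Integrable.of_bound hf.aestronglyMeasurable C (Filter.Eventually.of_forall h)

lemma int_chi_shift {s : ℝ} (hs : 0 < s) (x : ℝ) :
    ∫ y, chi0 s (y - x) ∂mu0 ≤ 2 * Real.pi * s := by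
  rw [← iv_eq (fun y => chi0 s (y - x)), intervalIntegral.integral_comp_sub_right (chi0 s) x]
  have h := int_chi0 hs (0 - x)
  have e : 0 - x + 2 * Real.pi = 2 * Real.pi - x := by ring
  rwa [e] at h

lemma int_A {s : ℝ} (hs : 0 < s) {f : ℝ → ℝ} (hf : Measurable f) {C : ℝ} (hC : ∀ x, |f x| ≤ C)
    (hf0 : ∀ x, 0 ≤ f x) :
    Integrable (fun z : ℝ × ℝ => chi0 s (z.2 - z.1) * f z.1) (mu0.prod mu0) ∧
    ∫ z : ℝ × ℝ, chi0 s (z.2 - z.1) * f z.1 ∂(mu0.prod mu0) ≤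
      2 * Real.pi * s * ∫ x, f x ∂mu0 := by
  have hi : Integrable (fun z : ℝ × ℝ => chi0 s (z.2 - z.1) * f z.1) (mu0.prod mu0) := by
    refine int_bdd (((meas_chi0 s).comp (measurable_snd.sub measurable_fst)).mul
      (hf.comp measurable_fst)) C fun z => ?_
    rw [abs_mul, abs_of_nonneg (chi0_nonneg _ _)]
    calc chi0 s (z.2 - z.1) * |f z.1| ≤ 1 * |f z.1| :=
          mul_le_mul_of_nonneg_right (chi0_le_one _ _) (abs_nonneg _)
      _ ≤ C := by rw [one_mul]; exact hC _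
  refine ⟨hi, ?_⟩
  rw [integral_prod _ hi, ← integral_const_mul]
  refine integral_mono hi.integral_prod_left ((int_bdd1 hf C hC).const_mul _) fun x => ?_
  change ∫ y, chi0 s (y - x) * f x ∂mu0 ≤ 2 * Real.pi * s * f x
  rw [integral_mul_const]
  exact mul_le_mul_of_nonneg_right (int_chi_shift hs x) (hf0 x)

lemma int_B {s : ℝ} (hs : 0 < s) {f : ℝ → ℝ} (hf : Measurable f) {C : ℝ} (hC : ∀ x, |f x| ≤ C)
    (hf0 : ∀ x, 0 ≤ f x) :
    Integrable (fun z : ℝ × ℝ => chi0 s (z.2 - z.1) * f z.2) (mu0.prod mu0) ∧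
    ∫ z : ℝ × ℝ, chi0 s (z.2 - z.1) * f z.2 ∂(mu0.prod mu0) ≤
      2 * Real.pi * s * ∫ x, f x ∂mu0 := by
  have hi : Integrable (fun z : ℝ × ℝ => chi0 s (z.2 - z.1) * f z.2) (mu0.prod mu0) := by
    refine int_bdd (((meas_chi0 s).comp (measurable_snd.sub measurable_fst)).mul
      (hf.comp measurable_snd)) C fun z => ?_
    rw [abs_mul, abs_of_nonneg (chi0_nonneg _ _)]
    calc chi0 s (z.2 - z.1) * |f z.2| ≤ 1 * |f z.2| :=
          mul_le_mul_of_nonneg_right (chi0_le_one _ _) (abs_nonneg _)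
      _ ≤ C := by rw [one_mul]; exact hC _
  refine ⟨hi, ?_⟩
  rw [integral_prod_symm _ hi, ← integral_const_mul]
  refine integral_mono hi.integral_prod_right ((int_bdd1 hf C hC).const_mul _) fun y => ?_
  change ∫ x, chi0 s (y - x) * f y ∂mu0 ≤ 2 * Real.pi * s * f y
  rw [integral_mul_const]
  have e : (fun x => chi0 s (y - x)) = fun x => chi0 s (x - y) := by
    funext x
    rw [← chi0_neg]
    congr 1
    ring
  rw [e]
  exact mul_le_mul_of_nonneg_right (int_chi_shift hs y) (hf0 y)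

/-- The integral of a double sector sum. -/
lemma int_F {δ : ℝ} (hδ : 0 < δ) (hδ2 : δ ≤ 2 * Real.pi) (R : ℝ) (c : ZI → ZI → ℝ) :
    Integrable (fun z : ℝ × ℝ => ∑ w1 ∈ cw R, ∑ w2 ∈ cw R,
      c w1 w2 * (sc δ z.1 w1 * sc δ z.2 w2)) (mu0.prod mu0) ∧
    ∫ z : ℝ × ℝ, ∑ w1 ∈ cw R, ∑ w2 ∈ cw R, c w1 w2 * (sc δ z.1 w1 * sc δ z.2 w2)
      ∂(mu0.prod mu0) = δ ^ 2 * ∑ w1 ∈ cw R, ∑ w2 ∈ cw R, c w1 w2 := by
  have hi : ∀ w1 w2 : ZI, Integrable (fun z : ℝ × ℝ => c w1 w2 * (sc δ z.1 w1 * sc δ z.2 w2))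
      (mu0.prod mu0) := by
    intro w1 w2
    refine int_bdd ((((meas_sc δ w1).comp measurable_fst).mul
      ((meas_sc δ w2).comp measurable_snd)).const_mul _) |c w1 w2| fun z => ?_
    rw [abs_mul, abs_of_nonneg (mul_nonneg (sc_nonneg _ _ _) (sc_nonneg _ _ _))]
    have h1 : sc δ z.1 w1 * sc δ z.2 w2 ≤ 1 :=
      mul_le_one₀ (sc_le_one _ _ _) (sc_nonneg _ _ _) (sc_le_one _ _ _)
    calc |c w1 w2| * (sc δ z.1 w1 * sc δ z.2 w2) ≤ |c w1 w2| * 1 :=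
          mul_le_mul_of_nonneg_left h1 (abs_nonneg _)
      _ = |c w1 w2| := mul_one _
  refine ⟨integrable_finsetSum _ fun w1 _ => integrable_finsetSum _ fun w2 _ => hi w1 w2, ?_⟩
  rw [integral_finsetSum _ fun w1 _ => integrable_finsetSum _ fun w2 _ => hi w1 w2, mul_sum]
  refine sum_congr rfl fun w1 _ => ?_
  rw [integral_finsetSum _ fun w2 _ => hi w1 w2, mul_sum]
  refine sum_congr rfl fun w2 _ => ?_
  rw [integral_const_mul, integral_prod_mul (fun x => sc δ x w1) (fun y => sc δ y w2), ← iv_eq,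
    ← iv_eq, int_sc hδ hδ2, int_sc hδ hδ2]
  ring

/-! ### The partition of the sums -/

/-- the sector sums -/
noncomputable def Bs (R δ : ℝ) (J i : ℕ) (β : ZI → ℝ) (x : ℝ) : ℝ :=
  ∑ t ∈ (cw R).filter (fun t => Yi R J i < nz t ∧ nz t ≤ Yi R J (i + 1)), β t * sc δ x t

lemma fib {R : ℝ} (hR : 1 ≤ R) {J : ℕ} (hJ : 0 < J) (f : ℕ → ZI → ℝ) :
    ∑ w ∈ cw R, f (idx R J w) w = ∑ i ∈ range J,
      ∑ w ∈ (cw R).filter (fun t => Yi R J i < nz t ∧ nz t ≤ Yi R J (i + 1)), f i w := by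
  rw [← sum_fiberwise_of_maps_to (g := idx R J) (t := range J)
    (fun w hw => mem_range.2 (idx_spec hR hJ hw).1)]
  refine sum_congr rfl fun i _ => ?_
  have e : (cw R).filter (fun w => idx R J w = i) =
      (cw R).filter (fun t => Yi R J i < nz t ∧ nz t ≤ Yi R J (i + 1)) := by
    ext w
    rw [mem_filter, mem_filter]
    refine and_congr_right fun hw => (idx_spec hR hJ hw).2 i
  rw [← e]
  refine sum_congr rfl fun w hw => ?_
  rw [(mem_filter.1 hw).2]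

lemma G_eq {R δ : ℝ} (hR : 1 ≤ R) {J : ℕ} (hJ : 0 < J) (β1 β2 : ZI → ℝ) (k : ℕ → ℕ → ℝ)
    (x y : ℝ) : ∑ w1 ∈ cw R, ∑ w2 ∈ cw R, β1 w1 * β2 w2 * k (idx R J w1) (idx R J w2) *
      (sc δ x w1 * sc δ y w2) = ∑ i ∈ range J, ∑ j ∈ range J,
      k i j * (Bs R δ J i β1 x * Bs R δ J j β2 y) := by
  have h1 : ∀ w1 : ZI, ∑ w2 ∈ cw R, β1 w1 * β2 w2 * k (idx R J w1) (idx R J w2) *
      (sc δ x w1 * sc δ y w2) = ∑ j ∈ range J, ∑ w2 ∈ (cw R).filter
        (fun t => Yi R J j < nz t ∧ nz t ≤ Yi R J (j + 1)),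
        β1 w1 * β2 w2 * k (idx R J w1) j * (sc δ x w1 * sc δ y w2) := fun w1 =>
    fib hR hJ fun j w2 => β1 w1 * β2 w2 * k (idx R J w1) j * (sc δ x w1 * sc δ y w2)
  rw [sum_congr rfl fun w1 _ => h1 w1]
  rw [fib hR hJ fun i w1 => ∑ j ∈ range J, ∑ w2 ∈ (cw R).filter
        (fun t => Yi R J j < nz t ∧ nz t ≤ Yi R J (j + 1)),
        β1 w1 * β2 w2 * k i j * (sc δ x w1 * sc δ y w2)]
  refine sum_congr rfl fun i _ => ?_
  rw [sum_comm]
  refine sum_congr rfl fun j _ => ?_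
  unfold Bs
  rw [sum_mul_sum, mul_sum]
  refine sum_congr rfl fun w1 _ => ?_
  rw [mul_sum]
  refine sum_congr rfl fun w2 _ => ?_
  ring

lemma meas_Bs (R δ : ℝ) (J i : ℕ) (β : ZI → ℝ) : Measurable (Bs R δ J i β) := by
  unfold Bs
  exact Finset.measurable_fun_sum _ fun t _ => (meas_sc δ t).const_mul _

lemma bdd_Bs (R δ : ℝ) (J i : ℕ) (β : ZI → ℝ) (hβ : ∀ w, |β w| ≤ 1) (x : ℝ) :
    |Bs R δ J i β x| ≤ (cw R).card := by
  unfold Bs
  refine (abs_sum_le_sum_abs _ _).trans ?_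
  calc _ ≤ ∑ t ∈ (cw R).filter (fun t => Yi R J i < nz t ∧ nz t ≤ Yi R J (i + 1)), (1 : ℝ) := by
        refine sum_le_sum fun t _ => ?_
        rw [abs_mul, abs_of_nonneg (sc_nonneg _ _ _)]
        exact mul_le_one₀ (hβ t) (sc_nonneg _ _ _) (sc_le_one _ _ _)
    _ ≤ (cw R).card := by
        rw [sum_const, nsmul_eq_mul, mul_one]
        exact_mod_cast card_filter_le _ _

/-- The count of the pairs. -/
lemma count {C : ℝ} (hC : 0 < C) {R X κ : ℝ} (hX : 0 ≤ X) (hκ : 0 ≤ κ)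
    (h1 : ((cw R).card : ℝ) ≤ C * R ^ 2)
    (h2 : ∀ w ∈ cw R, ∀ D : ℤ, (((cw R).filter (fun w2 => dl w w2 = D)).card : ℝ) ≤ C) :
    ∑ w1 ∈ cw R, ∑ w2 ∈ cw R, (if |(dl w1 w2 : ℝ)| ≤ X then κ else 0) ≤
      κ * (C ^ 2 * R ^ 2 * (2 * X + 1)) := by
  have h3 : ∀ w1 ∈ cw R, ∑ w2 ∈ cw R, (if |(dl w1 w2 : ℝ)| ≤ X then κ else 0) ≤
      κ * ((2 * X + 1) * C) := by
    intro w1 hw1
    rw [← sum_filter, sum_const, nsmul_eq_mul, mul_comm]
    refine mul_le_mul_of_nonneg_left ?_ hκ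
    have hm : ∀ w2 ∈ (cw R).filter (fun w2 => |(dl w1 w2 : ℝ)| ≤ X),
        dl w1 w2 ∈ Icc (-⌊X⌋) ⌊X⌋ := by
      intro w2 hw2
      have h4 := (mem_filter.1 hw2).2
      rw [abs_le] at h4
      rw [mem_Icc]
      constructor
      · rw [neg_le]
        refine Int.le_floor.2 ?_
        push_cast
        linarith
      · exact Int.le_floor.2 h4.2
    rw [card_eq_sum_card_fiberwise hm]
    push_cast
    calc ∑ D ∈ Icc (-⌊X⌋) ⌊X⌋, ((((cw R).filter (fun w2 => |(dl w1 w2 : ℝ)| ≤ X)).filter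
          (fun w2 => dl w1 w2 = D)).card : ℝ) ≤ ∑ D ∈ Icc (-⌊X⌋) ⌊X⌋, C := by
          refine sum_le_sum fun D _ => ?_
          refine le_trans ?_ (h2 w1 hw1 D)
          exact_mod_cast card_le_card (filter_subset_filter _ (filter_subset _ _))
      _ = ((Icc (-⌊X⌋) ⌊X⌋).card : ℝ) * C := by rw [sum_const, nsmul_eq_mul]
      _ ≤ (2 * X + 1) * C := by
          refine mul_le_mul_of_nonneg_right ?_ hC.le
          rw [Int.card_Icc]
          have h5 : 0 ≤ ⌊X⌋ := Int.floor_nonneg.2 hX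
          have h6 : ((⌊X⌋ + 1 - -⌊X⌋).toNat : ℝ) = ((⌊X⌋ + 1 - -⌊X⌋ : ℤ) : ℝ) := by
            rw [← Int.cast_natCast, Int.toNat_of_nonneg (by omega)]
          rw [h6]
          push_cast
          have h7 := Int.floor_le X
          linarith
  calc _ ≤ ∑ w1 ∈ cw R, κ * ((2 * X + 1) * C) := sum_le_sum h3
    _ = ((cw R).card : ℝ) * (κ * ((2 * X + 1) * C)) := by rw [sum_const, nsmul_eq_mul]
    _ ≤ C * R ^ 2 * (κ * ((2 * X + 1) * C)) :=
        mul_le_mul_of_nonneg_right h1 (by positivity)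
    _ = κ * (C ^ 2 * R ^ 2 * (2 * X + 1)) := by ring

/-! ### The proof of (KER) -/

theorem ker (hc : S_CNT) : S_KER := by
  obtain ⟨C, hC, hcnt⟩ := hc
  refine ⟨8 * C ^ 2 + 32 * Real.pi, by positivity, ?_⟩
  intro R κ₀ κ₁ s δ η E K β1 β2 hR hs _ hδ hδ1 hη hη1 hκ₀ hκ₁ hE hK hβ1 hβ2 hE1 hE2
  have hpi := Real.pi_gt_three
  have hδ2 : δ ≤ 2 * Real.pi := by linarith
  have hη1' : η ≤ 1 := by linarith
  -- the number of the parts
  obtain ⟨J, hJdef⟩ : ∃ J : ℕ, J = ⌈3 / η⌉₊ := ⟨_, rfl⟩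
  have hJ : 0 < J := by rw [hJdef]; exact Nat.ceil_pos.2 (by positivity)
  have hJ' : (0 : ℝ) < J := by exact_mod_cast hJ
  have hJη : 3 / (J : ℝ) ≤ η := by
    rw [div_le_iff₀ hJ']
    have := Nat.le_ceil (3 / η)
    rw [← hJdef, div_le_iff₀ hη] at this
    linarith
  have hJ4 : (J : ℝ) ≤ 4 / η := by
    have := Nat.ceil_lt_add_one (show (0 : ℝ) ≤ 3 / η by positivity)
    rw [← hJdef] at this
    have h1 : (1 : ℝ) ≤ 1 / η := by rw [le_div_iff₀ hη]; linarith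
    have h2 : 4 / η = 3 / η + 1 / η := by ring
    linarith
  obtain ⟨X, hX⟩ : ∃ X : ℝ, X = 4 * (s + δ) * R ^ 2 := ⟨_, rfl⟩
  have hX0 : 0 ≤ X := by rw [hX]; positivity
  -- the functions
  set S := ∑ w1 ∈ cw R, ∑ w2 ∈ cw R, β1 w1 * β2 w2 * K w1 w2 with hS
  obtain ⟨hFi, hFe⟩ := int_F hδ hδ2 R (fun w1 w2 => β1 w1 * β2 w2 * K w1 w2)
  obtain ⟨hHi, hHe⟩ := int_F hδ hδ2 R (fun w1 w2 => if |(dl w1 w2 : ℝ)| ≤ X then κ₁ else 0)
  rw [← hS] at hFe
  -- the quadratic terms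
  have hB1 : ∀ i : ℕ, Measurable (fun x => (Bs R δ J i β1 x) ^ 2) := fun i =>
    (meas_Bs R δ J i β1).pow_const 2
  have hB2 : ∀ i : ℕ, Measurable (fun x => (Bs R δ J i β2 x) ^ 2) := fun i =>
    (meas_Bs R δ J i β2).pow_const 2
  have hb : ∀ (β : ZI → ℝ), (∀ w, |β w| ≤ 1) → ∀ (i : ℕ) (x : ℝ),
      |(Bs R δ J i β x) ^ 2| ≤ ((cw R).card : ℝ) ^ 2 := by
    intro β hβ i x
    rw [abs_pow]
    exact pow_le_pow_left₀ (abs_nonneg _) (bdd_Bs R δ J i β hβ x) 2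
  have hA : ∀ i : ℕ, _ := fun i => int_A hs (hB1 i) (hb β1 hβ1 i) (fun x => sq_nonneg _)
  have hB : ∀ i : ℕ, _ := fun i => int_B hs (hB2 i) (hb β2 hβ2 i) (fun x => sq_nonneg _)
  have hEi1 : ∀ i ∈ range J, ∫ x, (Bs R δ J i β1 x) ^ 2 ∂mu0 ≤ E := by
    intro i hi
    have hi' := mem_range.1 hi
    rw [← iv_eq (fun x => (Bs R δ J i β1 x) ^ 2)]
    exact hE1 _ _ (Yi_bounds hR hi'.le).1 Yi_mono (Yi_bounds hR (Nat.succ_le_of_lt hi')).2
  have hEi2 : ∀ i ∈ range J, ∫ x, (Bs R δ J i β2 x) ^ 2 ∂mu0 ≤ E := by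
    intro i hi
    have hi' := mem_range.1 hi
    rw [← iv_eq (fun x => (Bs R δ J i β2 x) ^ 2)]
    exact hE2 _ _ (Yi_bounds hR hi'.le).1 Yi_mono (Yi_bounds hR (Nat.succ_le_of_lt hi')).2
  set Qf : ℝ × ℝ → ℝ := fun z => ∑ i ∈ range J, ∑ j ∈ range J,
    (κ₀ / 2 * (chi0 s (z.2 - z.1) * (Bs R δ J i β1 z.1) ^ 2) +
      κ₀ / 2 * (chi0 s (z.2 - z.1) * (Bs R δ J j β2 z.2) ^ 2)) with hQf
  have hQij : ∀ i j : ℕ, Integrable (fun z : ℝ × ℝ =>
      κ₀ / 2 * (chi0 s (z.2 - z.1) * (Bs R δ J i β1 z.1) ^ 2) +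
      κ₀ / 2 * (chi0 s (z.2 - z.1) * (Bs R δ J j β2 z.2) ^ 2)) (mu0.prod mu0) := fun i j =>
    ((hA i).1.const_mul _).add ((hB j).1.const_mul _)
  have hQi : Integrable Qf (mu0.prod mu0) :=
    integrable_finsetSum _ fun i _ => integrable_finsetSum _ fun j _ => hQij i j
  have hQe : ∫ z, Qf z ∂(mu0.prod mu0) ≤ 32 * Real.pi * (κ₀ * s * E / η ^ 2) := by
    have h1 : ∫ z, Qf z ∂(mu0.prod mu0) ≤ ∑ i ∈ range J, ∑ j ∈ range J,
        κ₀ * (2 * Real.pi * s * E) := by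
      rw [hQf, integral_finsetSum _ fun i _ => integrable_finsetSum _ fun j _ => hQij i j]
      refine sum_le_sum fun i hi => ?_
      rw [integral_finsetSum _ fun j _ => hQij i j]
      refine sum_le_sum fun j hj => ?_
      rw [integral_add ((hA i).1.const_mul _) ((hB j).1.const_mul _), integral_const_mul,
        integral_const_mul]
      have e1 := (hA i).2.trans (mul_le_mul_of_nonneg_left (hEi1 i hi)
        (show 0 ≤ 2 * Real.pi * s by positivity))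
      have e2 := (hB j).2.trans (mul_le_mul_of_nonneg_left (hEi2 j hj)
        (show 0 ≤ 2 * Real.pi * s by positivity))
      have e3 := mul_le_mul_of_nonneg_left e1 (show 0 ≤ κ₀ / 2 by positivity)
      have e4 := mul_le_mul_of_nonneg_left e2 (show 0 ≤ κ₀ / 2 by positivity)
      calc _ ≤ κ₀ / 2 * (2 * Real.pi * s * E) + κ₀ / 2 * (2 * Real.pi * s * E) :=
            add_le_add e3 e4
        _ = κ₀ * (2 * Real.pi * s * E) := by ring
    refine h1.trans ?_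
    rw [sum_const, sum_const, card_range, nsmul_eq_mul, nsmul_eq_mul, ← mul_assoc]
    have hJ2 : (J : ℝ) * J ≤ 4 / η * (4 / η) := mul_le_mul hJ4 hJ4 hJ'.le (by positivity)
    calc (J : ℝ) * J * (κ₀ * (2 * Real.pi * s * E)) ≤
        4 / η * (4 / η) * (κ₀ * (2 * Real.pi * s * E)) :=
          mul_le_mul_of_nonneg_right hJ2 (by positivity)
      _ = 32 * Real.pi * (κ₀ * s * E / η ^ 2) := by
          field_simp
          ring
  -- the pointwise bound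
  have hpt : ∀ z : ℝ × ℝ, ‖∑ w1 ∈ cw R, ∑ w2 ∈ cw R, β1 w1 * β2 w2 * K w1 w2 *
      (sc δ z.1 w1 * sc δ z.2 w2)‖ ≤ (∑ w1 ∈ cw R, ∑ w2 ∈ cw R,
      (if |(dl w1 w2 : ℝ)| ≤ X then κ₁ else 0) * (sc δ z.1 w1 * sc δ z.2 w2)) + Qf z := by
    intro z
    rw [Real.norm_eq_abs]
    obtain ⟨k, hk⟩ : ∃ k : ℕ → ℕ → ℝ, ∀ i j, k i j =
        K (Real.sqrt (Yi R J i) * Complex.exp (z.1 * Complex.I))
          (Real.sqrt (Yi R J j) * Complex.exp (z.2 * Complex.I)) := ⟨_, fun _ _ => rfl⟩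
    have h1 : |∑ w1 ∈ cw R, ∑ w2 ∈ cw R, β1 w1 * β2 w2 * K w1 w2 *
        (sc δ z.1 w1 * sc δ z.2 w2) - ∑ w1 ∈ cw R, ∑ w2 ∈ cw R, β1 w1 * β2 w2 *
        k (idx R J w1) (idx R J w2) * (sc δ z.1 w1 * sc δ z.2 w2)| ≤
        ∑ w1 ∈ cw R, ∑ w2 ∈ cw R,
          (if |(dl w1 w2 : ℝ)| ≤ X then κ₁ else 0) * (sc δ z.1 w1 * sc δ z.2 w2) := by
      rw [← sum_sub_distrib]
      refine (abs_sum_le_sum_abs _ _).trans (sum_le_sum fun w1 hw1 => ?_)
      rw [← sum_sub_distrib]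
      refine (abs_sum_le_sum_abs _ _).trans (sum_le_sum fun w2 hw2 => ?_)
      rcases sc_cases δ z.1 w1 with h | h
      · rw [h]; simp
      rcases sc_cases δ z.2 w2 with h' | h'
      · rw [h']; simp
      rw [h, h', mul_one, mul_one, mul_one, mul_one, ← mul_sub, abs_mul, abs_mul]
      have hi1 := (idx_spec hR hJ hw1).1
      have hi2 := (idx_spec hR hJ hw2).1
      obtain ⟨r1, r1'⟩ := r_bounds hR hi1.le
      obtain ⟨r2, r2'⟩ := r_bounds hR hi2.le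
      have h2 := close hR hs hδ hK hw1 hw2 h h' r1 r1' r2 r2'
        (ratio hR hη hη1' hJ hJη hw1) (ratio hR hη hη1' hJ hJη hw2)
      rw [hk, hX]
      have h3 : |β1 w1| * |β2 w2| ≤ 1 := mul_le_one₀ (hβ1 _) (abs_nonneg _) (hβ2 _)
      exact (mul_le_of_le_one_left (abs_nonneg _) h3).trans h2
    have h2 : |∑ w1 ∈ cw R, ∑ w2 ∈ cw R, β1 w1 * β2 w2 *
        k (idx R J w1) (idx R J w2) * (sc δ z.1 w1 * sc δ z.2 w2)| ≤ Qf z := by
      rw [G_eq hR hJ, hQf]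
      refine (abs_sum_le_sum_abs _ _).trans (sum_le_sum fun i hi => ?_)
      refine (abs_sum_le_sum_abs _ _).trans (sum_le_sum fun j hj => ?_)
      obtain ⟨r1, r1'⟩ := r_bounds hR (mem_range.1 hi).le
      obtain ⟨r2, r2'⟩ := r_bounds hR (mem_range.1 hj).le
      have h3 := std_le (x := z.1) (y := z.2) hR hK r1 r1' r2 r2'
      rw [abs_mul, hk]
      have h4 : |Bs R δ J i β1 z.1 * Bs R δ J j β2 z.2| ≤
          ((Bs R δ J i β1 z.1) ^ 2 + (Bs R δ J j β2 z.2) ^ 2) / 2 := by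
        rw [abs_le]
        constructor <;> nlinarith [sq_nonneg (Bs R δ J i β1 z.1 + Bs R δ J j β2 z.2),
          sq_nonneg (Bs R δ J i β1 z.1 - Bs R δ J j β2 z.2)]
      calc _ ≤ κ₀ * chi0 s (z.2 - z.1) *
            (((Bs R δ J i β1 z.1) ^ 2 + (Bs R δ J j β2 z.2) ^ 2) / 2) :=
            mul_le_mul h3 h4 (abs_nonneg _) (mul_nonneg hκ₀ (chi0_nonneg _ _))
        _ = _ := by ring
    have h3 := abs_sub_abs_le_abs_sub (∑ w1 ∈ cw R, ∑ w2 ∈ cw R, β1 w1 * β2 w2 * K w1 w2 *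
        (sc δ z.1 w1 * sc δ z.2 w2)) (∑ w1 ∈ cw R, ∑ w2 ∈ cw R, β1 w1 * β2 w2 *
        k (idx R J w1) (idx R J w2) * (sc δ z.1 w1 * sc δ z.2 w2))
    linarith
  have hfin := norm_integral_le_of_norm_le (hHi.add hQi) (Filter.Eventually.of_forall hpt)
  rw [hFe] at hfin
  have hsum : ∫ a, ((fun z : ℝ × ℝ => ∑ w1 ∈ cw R, ∑ w2 ∈ cw R,
      (if |(dl w1 w2 : ℝ)| ≤ X then κ₁ else 0) * (sc δ z.1 w1 * sc δ z.2 w2)) + Qf) a
      ∂(mu0.prod mu0) ≤ δ ^ 2 * (κ₁ * (C ^ 2 * R ^ 2 * (2 * X + 1))) +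
      32 * Real.pi * (κ₀ * s * E / η ^ 2) := by
    rw [integral_add' hHi hQi, hHe]
    refine add_le_add (mul_le_mul_of_nonneg_left ?_ (sq_nonneg _)) hQe
    exact count hC hX0 hκ₁ (hcnt R hR).1 (hcnt R hR).2.1
  have hfin2 := hfin.trans hsum
  rw [Real.norm_eq_abs, abs_mul, abs_of_pos (by positivity : (0 : ℝ) < δ ^ 2)] at hfin2
  have hδ0 : 0 < δ ^ 2 := by positivity
  have e1 : |S| ≤ κ₁ * (C ^ 2 * R ^ 2 * (2 * X + 1)) +
      32 * Real.pi * (κ₀ * s * E / (δ ^ 2 * η ^ 2)) := by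
    refine le_of_mul_le_mul_left (hfin2.trans (le_of_eq ?_)) hδ0
    field_simp
  refine e1.trans ?_
  have e2 : κ₁ * (C ^ 2 * R ^ 2 * (2 * X + 1)) ≤
      8 * C ^ 2 * (κ₁ * R ^ 2 * ((s + δ) * R ^ 2 + 1)) := by
    rw [hX]
    have : 0 ≤ κ₁ * C ^ 2 * R ^ 2 := by positivity
    nlinarith
  have e3 : 0 ≤ 8 * C ^ 2 * (κ₀ * s * E / (δ ^ 2 * η ^ 2)) := by positivity
  have e4 : 0 ≤ 32 * Real.pi * (κ₁ * R ^ 2 * ((s + δ) * R ^ 2 + 1)) := by positivity
  calc _ ≤ 8 * C ^ 2 * (κ₁ * R ^ 2 * ((s + δ) * R ^ 2 + 1)) +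
        32 * Real.pi * (κ₀ * s * E / (δ ^ 2 * η ^ 2)) := by linarith
    _ ≤ (8 * C ^ 2 + 32 * Real.pi) * (κ₁ * R ^ 2 * ((s + δ) * R ^ 2 + 1) +
        κ₀ * s * E / (δ ^ 2 * η ^ 2)) := by linarith

end Pool.Agent.N8.GN.Ker
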